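import Pool.Agent.H30.WD.KeyQ

/-! [H69 WD Usamp] the upper sampling inequality: sums of `W n |f n|` over cells `(j^B, (j+1)^B]` -/

set_option autoImplicit false

namespace Pool.Agent.H69.WD

open MeasureTheory Set Pool.Agent.H30.WD

theorem pt_bound (f : ℝ → ℝ) (hd : ∀ x : ℝ, 0 < x → DifferentiableAt ℝ f x)
    (hc : ContinuousOn (deriv f) (Ioi 0)) (a c y : ℝ) (ha : 0 < a) (hac : a ≤ c)
    (hy : y ∈ Icc a c) :
    (c - a) * |f y| ≤ (∫ x in a..c, |f x|) + (c - a) * ∫ x in a..c, |deriv f x| := by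
  have hsub : Icc a c ⊆ Ioi (0 : ℝ) := fun x hx => lt_of_lt_of_le ha hx.1
  have hfc : ContinuousOn f (Icc a c) := fun x hx => (hd x (hsub hx)).continuousAt.continuousWithinAt
  have hgc : ContinuousOn (fun x => |deriv f x|) (Icc a c) := (hc.mono hsub).abs
  have hgi : IntegrableOn (fun x => |deriv f x|) (Icc a c) := hgc.integrableOn_Icc
  have hf1 : IntervalIntegrable (fun x => |f x|) volume a c := by
    refine ContinuousOn.intervalIntegrable ?_
    rw [uIcc_of_le hac]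
    exact hfc.abs
  have h1 : ∀ z ∈ Icc a c, |f y| ≤ |f z| + ∫ x in a..c, |deriv f x| := by
    intro z hz
    have hzy : uIcc z y ⊆ Icc a c := by
      intro x hx
      rw [mem_uIcc] at hx
      rcases hx with hx | hx
      · exact ⟨hz.1.trans hx.1, hx.2.trans hy.2⟩
      · exact ⟨hy.1.trans hx.1, hx.2.trans hz.2⟩
    have h2 : ∫ x in z..y, deriv f x = f y - f z := by
      refine intervalIntegral.integral_eq_sub_of_hasDerivAt (fun x hx => ?_) ?_
      · exact (hd x (hsub (hzy hx))).hasDerivAt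
      · exact ContinuousOn.intervalIntegrable ((hc.mono hsub).mono hzy)
    have h3 : |∫ x in z..y, deriv f x| ≤ ∫ x in a..c, |deriv f x| := by
      have h30 := intervalIntegral.norm_integral_le_integral_norm_uIoc (f := deriv f) (μ := volume)
        (a := z) (b := y)
      rw [Real.norm_eq_abs] at h30
      refine h30.trans ?_
      simp only [Real.norm_eq_abs]
      rw [intervalIntegral.integral_of_le hac]
      refine setIntegral_mono_set (hgi.mono_set Ioc_subset_Icc_self) ?_ ?_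
      · exact Filter.Eventually.of_forall fun x => abs_nonneg _
      · refine Filter.Eventually.of_forall fun x hx => ?_
        have hx' : x ∈ Ioc (min z y) (max z y) := hx
        exact ⟨lt_of_le_of_lt (le_min hz.1 hy.1) hx'.1, hx'.2.trans (max_le hz.2 hy.2)⟩
    rw [h2] at h3
    have h4 := abs_sub_abs_le_abs_sub (f y) (f z)
    linarith
  have h5 : (∫ _ in a..c, |f y|) ≤ ∫ z in a..c, (|f z| + ∫ x in a..c, |deriv f x|) := by
    refine intervalIntegral.integral_mono_on hac intervalIntegrable_const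
      (hf1.add intervalIntegrable_const) h1
  rw [intervalIntegral.integral_add hf1 intervalIntegrable_const, intervalIntegral.integral_const,
    intervalIntegral.integral_const, smul_eq_mul, smul_eq_mul] at h5
  exact h5

/-- the error function -/
noncomputable def GG (lam : ℝ) (B : ℕ) (D : ℝ) (f : ℝ → ℝ) (x : ℝ) : ℝ :=
  uu lam x * |f x| + D * (uu lam x * (x ^ (-(1 / (B : ℝ))) * |x * deriv f x|))

theorem uu_nonneg (lam x : ℝ) (hx : 0 < x) : 0 ≤ uu lam x := by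
  unfold uu
  split_ifs
  · positivity
  · positivity

theorem uu_cell (lam : ℝ) (B j : ℕ) (hB : 1 ≤ B) (hj : 3 ≤ j) (x : ℝ) (h1 : (j : ℝ) ^ B ≤ x)
    (h2 : x ≤ ((j : ℝ) + 1) ^ B) : (Real.log j ^ 2)⁻¹ ≤ 9 * (B : ℝ) ^ 2 * uu lam x := by
  have hj3 : (3 : ℝ) ≤ j := by exact_mod_cast hj
  have hB1 : (1 : ℝ) ≤ B := by exact_mod_cast hB
  have hlj : 1 ≤ Real.log j := by
    rw [Real.le_log_iff_exp_le (by linarith)]
    linarith [Real.exp_one_lt_d9]
  have hx1 : (1 : ℝ) ≤ x := (one_le_pow₀ (by linarith)).trans h1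
  have hlx0 : 0 ≤ Real.log x := Real.log_nonneg hx1
  have h3 : Real.log x ≤ B * (2 * Real.log j) := by
    calc Real.log x ≤ Real.log (((j : ℝ) + 1) ^ B) := Real.log_le_log (by linarith) h2
      _ = B * Real.log ((j : ℝ) + 1) := Real.log_pow _ _
      _ ≤ B * (2 * Real.log j) := by
          refine mul_le_mul_of_nonneg_left ?_ (by linarith)
          have : Real.log ((j : ℝ) + 1) ≤ Real.log ((j : ℝ) ^ 2) :=
            Real.log_le_log (by linarith) (by nlinarith)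
          rwa [Real.log_pow, Nat.cast_ofNat] at this
  have h4 : 1 + Real.log x ≤ 3 * B * Real.log j := by nlinarith
  unfold uu
  rw [if_neg (by linarith)]
  have h5 : (1 + Real.log x) ^ 2 ≤ 9 * (B : ℝ) ^ 2 * Real.log j ^ 2 := by
    have := pow_le_pow_left₀ (by linarith) h4 2
    calc (1 + Real.log x) ^ 2 ≤ (3 * B * Real.log j) ^ 2 := this
      _ = 9 * (B : ℝ) ^ 2 * Real.log j ^ 2 := by ring
  have h6 : 0 < (1 + Real.log x) ^ 2 := by positivity
  have h7 : 0 < Real.log j ^ 2 := by positivity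
  rw [← div_eq_mul_inv, le_div_iff₀ h6, inv_mul_le_iff₀ h7]
  linarith

theorem len_cell (B j : ℕ) (hB : 1 ≤ B) (hj : 1 ≤ j) (x : ℝ) (h1 : (j : ℝ) ^ B ≤ x) :
    ((j : ℝ) + 1) ^ B - (j : ℝ) ^ B ≤ (B * 2 ^ B : ℝ) * (x * x ^ (-(1 / (B : ℝ)))) := by
  have hj1 : (1 : ℝ) ≤ j := by exact_mod_cast hj
  have hB1 : (1 : ℝ) ≤ B := by exact_mod_cast hB
  have hx0 : (0 : ℝ) < x := lt_of_lt_of_le (by positivity) h1
  obtain ⟨m, rfl⟩ : ∃ m, B = m + 1 := ⟨B - 1, by omega⟩
  have h2 : ((j : ℝ) + 1) ^ (m + 1) - (j : ℝ) ^ (m + 1) ≤ (m + 1 : ℝ) * ((j : ℝ) + 1) ^ m := by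
    have h := one_add_mul_le_pow (a := -(1 / ((j : ℝ) + 1))) (by
      have : 1 / ((j : ℝ) + 1) ≤ 1 := by
        rw [div_le_one (by linarith)]
        linarith
      linarith) (m + 1)
    have h3 : (1 + -(1 / ((j : ℝ) + 1))) = j / ((j : ℝ) + 1) := by
      field_simp
      ring
    rw [h3, div_pow, le_div_iff₀ (by positivity)] at h
    have h4 : (1 + ((m + 1 : ℕ) : ℝ) * -(1 / ((j : ℝ) + 1))) * ((j : ℝ) + 1) ^ (m + 1) =
        ((j : ℝ) + 1) ^ (m + 1) - (m + 1 : ℝ) * ((j : ℝ) + 1) ^ m := by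
      push_cast
      field_simp
      ring
    rw [h4] at h
    linarith
  have h5 : ((j : ℝ) + 1) ^ m ≤ 2 ^ m * (j : ℝ) ^ m := by
    rw [← mul_pow]
    exact pow_le_pow_left₀ (by linarith) (by linarith) m
  have h6 : (j : ℝ) ^ m ≤ x * x ^ (-(1 / ((m + 1 : ℕ) : ℝ))) := by
    have h7 : x * x ^ (-(1 / ((m + 1 : ℕ) : ℝ))) = x ^ ((m : ℝ) / (m + 1 : ℝ)) := by
      nth_rewrite 1 [← Real.rpow_one x]
      rw [← Real.rpow_add hx0]
      congr 1
      push_cast
      field_simp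
      ring
    rw [h7]
    calc (j : ℝ) ^ m = ((j : ℝ) ^ (m + 1)) ^ ((m : ℝ) / (m + 1 : ℝ)) := by
          rw [← Real.rpow_natCast (j : ℝ) (m + 1), ← Real.rpow_mul (by linarith), ← Real.rpow_natCast]
          congr 1
          push_cast
          field_simp
      _ ≤ x ^ ((m : ℝ) / (m + 1 : ℝ)) := Real.rpow_le_rpow (by positivity) h1 (by positivity)
  calc ((j : ℝ) + 1) ^ (m + 1) - (j : ℝ) ^ (m + 1) ≤ (m + 1 : ℝ) * ((j : ℝ) + 1) ^ m := h2
    _ ≤ (m + 1 : ℝ) * (2 ^ m * (j : ℝ) ^ m) := by gcongr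
    _ ≤ (m + 1 : ℝ) * (2 ^ (m + 1) * (x * x ^ (-(1 / ((m + 1 : ℕ) : ℝ))))) := by
        gcongr
        · norm_num
        · omega
    _ = (((m + 1 : ℕ) : ℝ) * 2 ^ (m + 1)) * (x * x ^ (-(1 / ((m + 1 : ℕ) : ℝ)))) := by
        push_cast
        ring

theorem cell_bound (lam : ℝ) (B : ℕ) (hB : 1 ≤ B) (f : ℝ → ℝ)
    (hd : ∀ x : ℝ, 0 < x → DifferentiableAt ℝ f x) (hc : ContinuousOn (deriv f) (Ioi 0))
    (ε : ℝ) (hε : 0 ≤ ε) (W : ℕ → ℝ) (hW : ∀ n, 0 ≤ W n) (j : ℕ) (hj : 3 ≤ j)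
    (hWj : ∑ n ∈ Finset.Ioc (j ^ B) ((j + 1) ^ B), W n ≤
      ε * (((j : ℝ) + 1) ^ B - (j : ℝ) ^ B) / Real.log j ^ 2)
    (hi : IntervalIntegrable (GG lam B (B * 2 ^ B) f) volume ((j : ℝ) ^ B) (((j : ℝ) + 1) ^ B)) :
    ∑ n ∈ Finset.Ioc (j ^ B) ((j + 1) ^ B), W n * |f n| ≤
      ε * (9 * (B : ℝ) ^ 2) * ∫ x in ((j : ℝ) ^ B)..(((j : ℝ) + 1) ^ B), GG lam B (B * 2 ^ B) f x := by
  have hj3 : (3 : ℝ) ≤ j := by exact_mod_cast hj
  have hj0 : (0 : ℝ) < j := by linarith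
  set a : ℝ := (j : ℝ) ^ B with ha_def
  set c : ℝ := ((j : ℝ) + 1) ^ B with hc_def
  have ha : 0 < a := by positivity
  have hac : a < c := pow_lt_pow_left₀ (by linarith) hj0.le (by omega)
  have hsub : Icc a c ⊆ Ioi (0 : ℝ) := fun x hx => lt_of_lt_of_le ha hx.1
  have hlj : 1 ≤ Real.log j := by
    rw [Real.le_log_iff_exp_le (by linarith)]
    linarith [Real.exp_one_lt_d9]
  set I1 : ℝ := ∫ x in a..c, |f x| with hI1
  set I2 : ℝ := ∫ x in a..c, |deriv f x| with hI2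
  have hI1n : 0 ≤ I1 := intervalIntegral.integral_nonneg hac.le fun x _ => abs_nonneg _
  have hI2n : 0 ≤ I2 := intervalIntegral.integral_nonneg hac.le fun x _ => abs_nonneg _
  -- pointwise bound
  have h1 : ∀ n ∈ Finset.Ioc (j ^ B) ((j + 1) ^ B), W n * |f n| ≤
      W n * ((I1 + (c - a) * I2) / (c - a)) := by
    intro n hn
    rw [Finset.mem_Ioc] at hn
    have hy : (n : ℝ) ∈ Icc a c := by
      constructor
      · have : ((j ^ B : ℕ) : ℝ) ≤ n := by exact_mod_cast hn.1.le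
        simpa [ha_def] using this
      · have : (n : ℝ) ≤ (((j + 1) ^ B : ℕ) : ℝ) := by exact_mod_cast hn.2
        simpa [hc_def] using this
    have h2 := pt_bound f hd hc a c n ha hac.le hy
    refine mul_le_mul_of_nonneg_left ?_ (hW n)
    rw [le_div_iff₀ (by linarith), mul_comm]
    exact h2
  have h3 : ∑ n ∈ Finset.Ioc (j ^ B) ((j + 1) ^ B), W n * |f n| ≤
      ε * (c - a) / Real.log j ^ 2 * ((I1 + (c - a) * I2) / (c - a)) := by
    refine (Finset.sum_le_sum h1).trans ?_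
    rw [← Finset.sum_mul]
    refine mul_le_mul_of_nonneg_right hWj ?_
    have : 0 < c - a := by linarith
    positivity
  have h4 : ε * (c - a) / Real.log j ^ 2 * ((I1 + (c - a) * I2) / (c - a)) =
      ε * ((Real.log j ^ 2)⁻¹ * I1 + (Real.log j ^ 2)⁻¹ * ((c - a) * I2)) := by
    have : c - a ≠ 0 := by
      have : 0 < c - a := by linarith
      exact this.ne'
    field_simp
  rw [h4] at h3
  refine h3.trans ?_
  rw [mul_assoc ε]
  refine mul_le_mul_of_nonneg_left ?_ hε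
  -- the integrals
  have hfc : ContinuousOn f (Icc a c) := fun x hx => (hd x (hsub hx)).continuousAt.continuousWithinAt
  have hf1 : IntervalIntegrable (fun x => |f x|) volume a c := by
    refine ContinuousOn.intervalIntegrable ?_
    rw [uIcc_of_le hac.le]
    exact hfc.abs
  have hf2 : IntervalIntegrable (fun x => |deriv f x|) volume a c := by
    refine ContinuousOn.intervalIntegrable ?_
    rw [uIcc_of_le hac.le]
    exact (hc.mono hsub).abs
  have h5 : (Real.log j ^ 2)⁻¹ * I1 + (Real.log j ^ 2)⁻¹ * ((c - a) * I2) =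
      ∫ x in a..c, ((Real.log j ^ 2)⁻¹ * |f x| + (Real.log j ^ 2)⁻¹ * ((c - a) * |deriv f x|)) := by
    rw [intervalIntegral.integral_add (hf1.const_mul _) ((hf2.const_mul _).const_mul _),
      intervalIntegral.integral_const_mul, intervalIntegral.integral_const_mul,
      intervalIntegral.integral_const_mul]
  rw [h5, ← intervalIntegral.integral_const_mul]
  refine intervalIntegral.integral_mono_on hac.le
    ((hf1.const_mul _).add ((hf2.const_mul _).const_mul _)) (hi.const_mul _) ?_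
  intro x hx
  have hx0 : 0 < x := hsub hx
  have hu := uu_cell lam B j hB hj x hx.1 hx.2
  have hl := len_cell B j hB (by omega) x hx.1
  have hun := uu_nonneg lam x hx0
  unfold GG
  rw [mul_add]
  refine add_le_add ?_ ?_
  · calc (Real.log j ^ 2)⁻¹ * |f x| ≤ 9 * (B : ℝ) ^ 2 * uu lam x * |f x| :=
        mul_le_mul_of_nonneg_right hu (abs_nonneg _)
      _ = 9 * (B : ℝ) ^ 2 * (uu lam x * |f x|) := by ring
  · calc (Real.log j ^ 2)⁻¹ * ((c - a) * |deriv f x|)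
        ≤ (9 * (B : ℝ) ^ 2 * uu lam x) *
          ((B * 2 ^ B : ℝ) * (x * x ^ (-(1 / (B : ℝ)))) * |deriv f x|) := by
          refine mul_le_mul hu ?_ ?_ ?_
          · exact mul_le_mul_of_nonneg_right hl (abs_nonneg _)
          · have : 0 ≤ c - a := by linarith
            positivity
          · positivity
      _ = 9 * (B : ℝ) ^ 2 * ((B * 2 ^ B : ℝ) * (uu lam x * (x ^ (-(1 / (B : ℝ))) * |x * deriv f x|))) := by
          rw [abs_mul, abs_of_pos hx0]
          ring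

theorem GG_nonneg (lam : ℝ) (B : ℕ) (f : ℝ → ℝ) (x : ℝ) (hx : 0 < x) :
    0 ≤ GG lam B (B * 2 ^ B) f x := by
  have := uu_nonneg lam x hx
  unfold GG
  positivity

theorem GG_ii (lam : ℝ) (B : ℕ) (f : ℝ → ℝ) (t a c : ℝ) (hta : t ≤ a) (hac : a ≤ c)
    (hG : IntegrableOn (GG lam B (B * 2 ^ B) f) (Ioi t)) :
    IntervalIntegrable (GG lam B (B * 2 ^ B) f) volume a c := by
  rw [intervalIntegrable_iff_integrableOn_Ioc_of_le hac]
  exact hG.mono_set fun x hx => lt_of_le_of_lt hta hx.1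

theorem sum_bound (lam : ℝ) (B : ℕ) (hB : 1 ≤ B) (f : ℝ → ℝ)
    (hd : ∀ x : ℝ, 0 < x → DifferentiableAt ℝ f x) (hc : ContinuousOn (deriv f) (Ioi 0))
    (ε : ℝ) (hε : 0 ≤ ε) (W : ℕ → ℝ) (hW : ∀ n, 0 ≤ W n) (J : ℕ) (hJ : 3 ≤ J)
    (hWj : ∀ j : ℕ, J ≤ j → ∑ n ∈ Finset.Ioc (j ^ B) ((j + 1) ^ B), W n ≤
      ε * (((j : ℝ) + 1) ^ B - (j : ℝ) ^ B) / Real.log j ^ 2)
    (hG : IntegrableOn (GG lam B (B * 2 ^ B) f) (Ioi ((J : ℝ) ^ B))) (N : ℕ) :
    ∑ n ∈ Finset.Ioc (J ^ B) ((J + N) ^ B), W n * |f n| ≤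
      ε * (9 * (B : ℝ) ^ 2) * ∫ x in ((J : ℝ) ^ B)..(((J + N : ℕ) : ℝ) ^ B), GG lam B (B * 2 ^ B) f x := by
  induction N with
  | zero => simp
  | succ N ih =>
    have hJ0 : (0 : ℝ) ≤ J := by positivity
    have h1 : J ^ B ≤ (J + N) ^ B := Nat.pow_le_pow_left (by omega) B
    have h2 : (J + N) ^ B ≤ (J + (N + 1)) ^ B := Nat.pow_le_pow_left (by omega) B
    have h1r : (J : ℝ) ^ B ≤ ((J + N : ℕ) : ℝ) ^ B := by exact_mod_cast h1
    have h2r : ((J + N : ℕ) : ℝ) ^ B ≤ ((J + (N + 1) : ℕ) : ℝ) ^ B := by exact_mod_cast h2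
    rw [← Finset.sum_Ioc_consecutive (fun n => W n * |f n|) h1 h2,
      ← intervalIntegral.integral_add_adjacent_intervals (GG_ii lam B f _ _ _ le_rfl h1r hG)
        (GG_ii lam B f _ _ _ h1r h2r hG), mul_add]
    refine add_le_add ih ?_
    have h3 := cell_bound lam B hB f hd hc ε hε W hW (J + N) (by omega) (hWj (J + N) (by omega)) (by
      have := GG_ii lam B f _ _ _ h1r h2r hG
      push_cast at this ⊢
      rwa [← add_assoc] at this)
    have e1 : ((J + N : ℕ) : ℝ) + 1 = ((J + (N + 1) : ℕ) : ℝ) := by push_cast; ring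
    rw [e1] at h3
    exact h3

theorem tail_int (lam : ℝ) (hlam : 8 < lam) (B : ℕ) (hB : 1 ≤ B) (hBl : 6 / lam < 1 / (B : ℝ)) :
    ∃ C : ℝ, 0 < C ∧ ∀ J : ℕ, 3 ≤ J → ∀ Q : ℝ, 1 ≤ Q → ∀ f ∈ TV lam Q,
      IntegrableOn (GG lam B (B * 2 ^ B) f) (Ioi ((J : ℝ) ^ B)) ∧
      ∫ x in Ioi ((J : ℝ) ^ B), GG lam B (B * 2 ^ B) f x ≤ C * nm lam f := by
  obtain ⟨C1, hC1, hkey⟩ := key lam hlam
  set e : ℝ := -(1 / (B : ℝ)) + (6 / lam - 1) with he
  have he1 : e < -1 := by rw [he]; linarith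
  have hB1 : (1 : ℝ) ≤ B := by exact_mod_cast hB
  refine ⟨1 + (B * 2 ^ B : ℝ) * (C1 * (1 / (-(e + 1)))), ?_, ?_⟩
  · have : 0 < -(e + 1) := by linarith
    positivity
  intro J hJ Q hQ f hf
  have hQ0 : 0 < Q := by linarith
  obtain ⟨hd, hc, -⟩ := reg lam Q (by linarith) hQ0 f hf
  obtain ⟨hn1, -⟩ := norm_int lam Q (by linarith) hQ0 f hf
  have hJ3 : (3 : ℝ) ≤ J := by exact_mod_cast hJ
  set a : ℝ := (J : ℝ) ^ B with ha_def
  have ha1 : 1 ≤ a := one_le_pow₀ (by linarith)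
  have hsub : Ioi a ⊆ Ioi (0 : ℝ) := fun x hx =>
    (lt_of_lt_of_le zero_lt_one ha1).trans hx
  have hnm : 0 ≤ nm lam f := by
    refine setIntegral_nonneg measurableSet_Ioi fun x hx => ?_
    exact mul_nonneg (uu_nonneg lam x hx) (abs_nonneg _)
  have hi1 : IntegrableOn (fun x => uu lam x * |f x|) (Ioi a) := hn1.mono_set hsub
  have hi1' : ∫ x in Ioi a, uu lam x * |f x| ≤ nm lam f := by
    refine setIntegral_mono_set hn1 ?_ (Filter.Eventually.of_forall hsub)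
    refine (ae_restrict_iff' measurableSet_Ioi).2 (Filter.Eventually.of_forall fun x hx => ?_)
    exact mul_nonneg (uu_nonneg lam x hx) (abs_nonneg _)
  have hdom : ∀ x ∈ Ioi a, |uu lam x * (x ^ (-(1 / (B : ℝ))) * |x * deriv f x|)| ≤
      C1 * nm lam f * x ^ e := by
    intro x hx
    have hx1 : 1 < x := lt_of_le_of_lt ha1 hx
    have hx0 : 0 < x := by linarith
    have hu0 := uu_nonneg lam x hx0
    have hu1 : uu lam x ≤ 1 := by
      unfold uu
      rw [if_neg (by linarith)]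
      refine inv_le_one_of_one_le₀ ?_
      have := Real.log_nonneg hx1.le
      nlinarith
    have hk := hkey Q f hQ0 hf x hx0
    have hk2 : |x * deriv f x| ≤ C1 * nm lam f * x ^ (6 / lam - 1) := by
      have h1 : |x * deriv f x| ≤ C1 * Q ^ (-(4 / lam)) * x ^ (6 / lam - 1) * nm lam f :=
        le_trans (le_add_of_nonneg_left (abs_nonneg _)) hk
      have h2 : Q ^ (-(4 / lam)) ≤ 1 := by
        refine Real.rpow_le_one_of_one_le_of_nonpos hQ ?_
        have : 0 < 4 / lam := by positivity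
        linarith
      calc |x * deriv f x| ≤ C1 * Q ^ (-(4 / lam)) * x ^ (6 / lam - 1) * nm lam f := h1
        _ ≤ C1 * 1 * x ^ (6 / lam - 1) * nm lam f := by gcongr
        _ = C1 * nm lam f * x ^ (6 / lam - 1) := by ring
    have hnn : 0 ≤ uu lam x * (x ^ (-(1 / (B : ℝ))) * |x * deriv f x|) := by positivity
    rw [abs_of_nonneg hnn]
    calc uu lam x * (x ^ (-(1 / (B : ℝ))) * |x * deriv f x|)
        ≤ 1 * (x ^ (-(1 / (B : ℝ))) * (C1 * nm lam f * x ^ (6 / lam - 1))) := by gcongr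
      _ = C1 * nm lam f * (x ^ (-(1 / (B : ℝ))) * x ^ (6 / lam - 1)) := by ring
      _ = C1 * nm lam f * x ^ e := by rw [he, ← Real.rpow_add hx0]
  have hdomi : IntegrableOn (fun x => C1 * nm lam f * x ^ e) (Ioi a) :=
    (integrableOn_Ioi_rpow_of_lt he1 (by linarith)).const_mul _
  have hcont : ContinuousOn (fun x => uu lam x * (x ^ (-(1 / (B : ℝ))) * |x * deriv f x|)) (Ioi a) := by
    have h1 : ContinuousOn (fun x => ((1 + Real.log x) ^ 2)⁻¹ *
        (x ^ (-(1 / (B : ℝ))) * |x * deriv f x|)) (Ioi a) := by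
      refine ContinuousOn.mul ?_ (ContinuousOn.mul ?_ ?_)
      · refine ContinuousOn.inv₀ ?_ ?_
        · refine ContinuousOn.pow (continuousOn_const.add (Real.continuousOn_log.mono ?_)) 2
          intro x hx
          exact (hsub hx).ne'
        · intro x hx
          have hx1 : 1 < x := lt_of_le_of_lt ha1 hx
          have := Real.log_nonneg hx1.le
          positivity
      · intro x hx
        exact (Real.continuousAt_rpow_const x _ (Or.inl (hsub hx).ne')).continuousWithinAt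
      · exact (continuousOn_id.mul (hc.mono hsub)).abs
    refine h1.congr fun x hx => ?_
    have hx1 : 1 < x := lt_of_le_of_lt ha1 hx
    unfold uu
    rw [if_neg (by linarith)]
  have hi2 : IntegrableOn (fun x => uu lam x * (x ^ (-(1 / (B : ℝ))) * |x * deriv f x|)) (Ioi a) := by
    refine Integrable.mono' hdomi (hcont.aestronglyMeasurable measurableSet_Ioi) ?_
    refine (ae_restrict_iff' measurableSet_Ioi).2 (Filter.Eventually.of_forall fun x hx => ?_)
    rw [Real.norm_eq_abs]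
    exact hdom x hx
  have hi2' : ∫ x in Ioi a, uu lam x * (x ^ (-(1 / (B : ℝ))) * |x * deriv f x|) ≤
      C1 * (1 / (-(e + 1))) * nm lam f := by
    have h1 : ∫ x in Ioi a, uu lam x * (x ^ (-(1 / (B : ℝ))) * |x * deriv f x|) ≤
        ∫ x in Ioi a, C1 * nm lam f * x ^ e := by
      refine setIntegral_mono_on hi2 hdomi measurableSet_Ioi fun x hx => ?_
      exact (le_abs_self _).trans (hdom x hx)
    rw [integral_const_mul, integral_Ioi_rpow_of_lt he1 (by linarith)] at h1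
    have h2 : -a ^ (e + 1) / (e + 1) ≤ 1 / (-(e + 1)) := by
      have h3 : a ^ (e + 1) ≤ 1 := Real.rpow_le_one_of_one_le_of_nonpos ha1 (by linarith)
      have h4 : 0 < -(e + 1) := by linarith
      calc -a ^ (e + 1) / (e + 1) = a ^ (e + 1) / (-(e + 1)) := by rw [neg_div, div_neg]
        _ ≤ 1 / (-(e + 1)) := by gcongr
    calc _ ≤ C1 * nm lam f * (-a ^ (e + 1) / (e + 1)) := h1
      _ ≤ C1 * nm lam f * (1 / (-(e + 1))) := by gcongr
      _ = C1 * (1 / (-(e + 1))) * nm lam f := by ring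
  refine ⟨hi1.add (hi2.const_mul _), ?_⟩
  have h5 : ∫ x in Ioi a, GG lam B (B * 2 ^ B) f x = (∫ x in Ioi a, uu lam x * |f x|) +
      (B * 2 ^ B : ℝ) * ∫ x in Ioi a, uu lam x * (x ^ (-(1 / (B : ℝ))) * |x * deriv f x|) := by
    rw [← integral_const_mul, ← integral_add hi1 (hi2.const_mul _)]
    rfl
  rw [h5]
  calc (∫ x in Ioi a, uu lam x * |f x|) +
      (B * 2 ^ B : ℝ) * ∫ x in Ioi a, uu lam x * (x ^ (-(1 / (B : ℝ))) * |x * deriv f x|)
      ≤ nm lam f + (B * 2 ^ B : ℝ) * (C1 * (1 / (-(e + 1))) * nm lam f) := by gcongr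
    _ = (1 + (B * 2 ^ B : ℝ) * (C1 * (1 / (-(e + 1))))) * nm lam f := by ring

/-- the upper sampling inequality -/
theorem usamp (lam : ℝ) (hlam : 8 < lam) (B : ℕ) (hB : 1 ≤ B) (hBl : 6 / lam < 1 / (B : ℝ)) :
    ∃ C : ℝ, 0 < C ∧ ∀ J : ℕ, 3 ≤ J → ∀ Q : ℝ, 1 ≤ Q → ∀ f ∈ TV lam Q,
    ∀ (ε : ℝ) (W : ℕ → ℝ), 0 ≤ ε → (∀ n, 0 ≤ W n) → (∀ n, W n ≠ 0 → J ^ B < n) →
    (∀ j : ℕ, J ≤ j → ∑ n ∈ Finset.Ioc (j ^ B) ((j + 1) ^ B), W n ≤
      ε * (((j : ℝ) + 1) ^ B - (j : ℝ) ^ B) / Real.log j ^ 2) →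
    Summable (fun n : ℕ => W n * |f n|) ∧ ∑' n : ℕ, W n * |f n| ≤ C * ε * nm lam f := by
  obtain ⟨C1, hC1, h1⟩ := tail_int lam hlam B hB hBl
  have hB1 : (1 : ℝ) ≤ B := by exact_mod_cast hB
  refine ⟨9 * (B : ℝ) ^ 2 * C1, by positivity, ?_⟩
  intro J hJ Q hQ f hf ε W hε hW hWs hWj
  have hQ0 : 0 < Q := by linarith
  obtain ⟨hd, hc, -⟩ := reg lam Q (by linarith) hQ0 f hf
  obtain ⟨hG, hGle⟩ := h1 J hJ Q hQ f hf
  have hJ3 : (3 : ℝ) ≤ J := by exact_mod_cast hJ
  have ha : (0 : ℝ) < (J : ℝ) ^ B := by positivity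
  have hnn : ∀ n : ℕ, 0 ≤ W n * |f n| := fun n => mul_nonneg (hW n) (abs_nonneg _)
  have hpart : ∀ M : ℕ, ∑ n ∈ Finset.range M, W n * |f n| ≤ 9 * (B : ℝ) ^ 2 * C1 * ε * nm lam f := by
    intro M
    have h2 : ∑ n ∈ Finset.range M, W n * |f n| ≤
        ∑ n ∈ Finset.Ioc (J ^ B) ((J + M) ^ B), W n * |f n| := by
      have h3 : ∑ n ∈ Finset.range M, W n * |f n| =
          ∑ n ∈ (Finset.range M).filter (fun n => J ^ B < n), W n * |f n| := by
        symm
        refine Finset.sum_filter_of_ne fun n _ hn => ?_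
        exact hWs n (fun h => hn (by rw [h, zero_mul]))
      rw [h3]
      refine Finset.sum_le_sum_of_subset_of_nonneg ?_ fun n _ _ => hnn n
      intro n hn
      rw [Finset.mem_filter, Finset.mem_range] at hn
      rw [Finset.mem_Ioc]
      refine ⟨hn.2, ?_⟩
      calc n ≤ J + M := by omega
        _ = (J + M) ^ 1 := (pow_one _).symm
        _ ≤ (J + M) ^ B := Nat.pow_le_pow_right (by omega) hB
    have h4 := sum_bound lam B hB f hd hc ε hε W hW J hJ hWj hG M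
    have h5 : ∫ x in ((J : ℝ) ^ B)..(((J + M : ℕ) : ℝ) ^ B), GG lam B (B * 2 ^ B) f x ≤
        ∫ x in Ioi ((J : ℝ) ^ B), GG lam B (B * 2 ^ B) f x := by
      have h6 : (J : ℝ) ^ B ≤ ((J + M : ℕ) : ℝ) ^ B := by
        have : J ^ B ≤ (J + M) ^ B := Nat.pow_le_pow_left (by omega) B
        exact_mod_cast this
      rw [intervalIntegral.integral_of_le h6]
      refine setIntegral_mono_set hG ?_ (Filter.Eventually.of_forall fun x hx => hx.1)
      refine (ae_restrict_iff' measurableSet_Ioi).2 (Filter.Eventually.of_forall fun x hx => ?_)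
      exact GG_nonneg lam B f x (lt_trans ha hx)
    calc ∑ n ∈ Finset.range M, W n * |f n|
        ≤ ∑ n ∈ Finset.Ioc (J ^ B) ((J + M) ^ B), W n * |f n| := h2
      _ ≤ ε * (9 * (B : ℝ) ^ 2) *
          ∫ x in ((J : ℝ) ^ B)..(((J + M : ℕ) : ℝ) ^ B), GG lam B (B * 2 ^ B) f x := h4
      _ ≤ ε * (9 * (B : ℝ) ^ 2) * (C1 * nm lam f) := by
          refine mul_le_mul_of_nonneg_left (h5.trans hGle) (by positivity)
      _ = 9 * (B : ℝ) ^ 2 * C1 * ε * nm lam f := by ring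
  exact ⟨summable_of_sum_range_le hnn hpart, Real.tsum_le_of_sum_range_le hnn hpart⟩

end Pool.Agent.H69.WD
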